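import Pool.Agent.Helper80.SI.StN

set_option autoImplicit false

/-!
# Project SI, module N15: band
-/

namespace Pool.Agent.Helper90.SI

open Pool.Agent.Helper99.SI Pool.Agent.Helper80.SI Filter Topology

theorem hN15 (h1 : StA0) (h2 : StK2) (h3 : StK3) : StN15 := by
  intro n L _ _ _ _ _ D
  obtain ⟨A, hA⟩ := (D.g.fin (HH D)).bddAbove
  obtain ⟨B, hB⟩ := (D.g.fin (HH D)).bddBelow
  have hband : ∀ j : ℤ, D.g.p j (HH D) ≠ 0 → j ≤ A ∧ B ≤ j := fun j hj =>
    ⟨hA (show j ∈ {j : ℤ | D.g.p j (HH D) ≠ 0} from hj),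
      hB (show j ∈ {j : ℤ | D.g.p j (HH D) ≠ 0} from hj)⟩
  refine ⟨(max A (-B)).toNat, fun c l y hc hy hd => ?_⟩
  have hz : D.tau c 0 = 0 := by
    have := (h2 n L D c hc).2.2.1 0 0
    simpa using this
  have hg := (h3 n L D c hc).2 (c.length : ℤ) (y * HH D)
  rw [if_pos rfl] at hg
  rw [← hg, (h1 L D.g).1]
  have hterm : ∀ i : ℤ, D.g.p i y * D.g.p ((c.length : ℤ) - i) (HH D) = 0 := by
    intro i
    rw [← hy, D.g.pp]
    split_ifs with hil
    · have h0 : D.g.p ((c.length : ℤ) - i) (HH D) = 0 := by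
        by_contra hne
        obtain ⟨h4, h5⟩ := hband _ hne
        omega
      rw [h0, mul_zero]
    · rw [zero_mul]
  rw [finsum_eq_zero_of_forall_eq_zero hterm, hz]

end Pool.Agent.Helper90.SI
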