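import Pool.Agent.Helper99.SI.StA

set_option autoImplicit false

/-!
# Project SI (MP_181f94), module A5: closure properties of the span of the words
-/

namespace Pool.Agent.Helper90.SI

open Pool.Agent.Helper99.SI

theorem span_mul_mem {L : Type} [Ring L] [Algebra ℂ L] {A B : Set L} {P : Submodule ℂ L}
    (h : ∀ a ∈ A, ∀ b ∈ B, a * b ∈ P) {y z : L} (hy : y ∈ Submodule.span ℂ A)
    (hz : z ∈ Submodule.span ℂ B) : y * z ∈ P := by
  have h1 : Submodule.span ℂ A * Submodule.span ℂ B ≤ P := by
    rw [Submodule.span_mul_span, Submodule.span_le]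
    rintro _ ⟨a, ha, b, hb, rfl⟩
    exact h a ha b hb
  exact h1 (Submodule.mul_mem_mul hy hz)

theorem w_mem_S {n : ℕ} {L : Type} [Ring L] [Algebra ℂ L] [StarRing L] (D : Sys n L) (μ : W n) :
    D.w μ ∈ D.S := Submodule.subset_span ⟨μ, rfl⟩

theorem w_mem_Sge {n : ℕ} {L : Type} [Ring L] [Algebra ℂ L] [StarRing L] (D : Sys n L) (k : ℕ)
    (μ : W n) (h : k ≤ μ.length) : D.w μ ∈ D.Sge k := Submodule.subset_span ⟨μ, h, rfl⟩

theorem emb_single {n : ℕ} {L : Type} [Ring L] [Algebra ℂ L] [StarRing L] (D : Sys n L)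
    (μ : W n) (c : ℂ) : D.emb (Finsupp.single μ c) = c • D.w μ := by
  unfold Sys.emb
  rw [Finsupp.linearCombination_single]

theorem g_w (h2 : StA2) {n : ℕ} {L : Type} [Ring L] [Algebra ℂ L] [StarRing L] [StarModule ℂ L]
    (D : Sys n L) (l : ℤ) (μ : W n) :
    D.g.p l (D.w μ) = if (μ.length : ℤ) = l then D.w μ else 0 := by
  have h := h2 n L D l μ []
  have e : star (D.w []) = 1 := by
    have : D.w [] = 1 := rfl
    rw [this, star_one]
  rw [e, mul_one] at h
  rw [h]
  simp only [List.length_nil, Nat.cast_zero, sub_zero]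
  by_cases hl : (μ.length : ℤ) = l
  · rw [if_pos hl, if_pos hl.symm]
  · rw [if_neg hl, if_neg (Ne.symm hl)]

theorem g_emb (h2 : StA2) {n : ℕ} {L : Type} [Ring L] [Algebra ℂ L] [StarRing L]
    [StarModule ℂ L] (D : Sys n L) (l : ℤ) (p : W n →₀ ℂ) :
    D.g.p l (D.emb p) = D.emb (p.filter (fun μ : W n => (μ.length : ℤ) = l)) := by
  induction p using Finsupp.induction_linear with
  | zero =>
    have hz : (0 : W n →₀ ℂ).filter (fun μ : W n => (μ.length : ℤ) = l) = 0 :=
      Finsupp.filter_zero _
    rw [hz, map_zero, map_zero]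
  | add f g hf hg => rw [map_add, map_add, hf, hg, Finsupp.filter_add, map_add]
  | single μ c =>
    rw [emb_single, map_smul, g_w h2]
    by_cases hl : (μ.length : ℤ) = l
    · have e1 : (Finsupp.single μ c : W n →₀ ℂ).filter (fun μ : W n => (μ.length : ℤ) = l)
          = Finsupp.single μ c :=
        Finsupp.filter_single_of_pos (fun μ : W n => (μ.length : ℤ) = l) hl
      rw [if_pos hl, e1, emb_single]
    · have e1 : (Finsupp.single μ c : W n →₀ ℂ).filter (fun μ : W n => (μ.length : ℤ) = l)
          = 0 :=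
        Finsupp.filter_single_of_neg (fun μ : W n => (μ.length : ℤ) = l) hl
      rw [if_neg hl, e1, smul_zero, map_zero]

theorem hA5 (h1 : StA1) (h2 : StA2) (h3 : StA3) : StA5 := by
  intro n L _ _ _ _ _ D
  obtain ⟨a1, -, -, -, -⟩ := h1 n L D
  obtain ⟨-, c1, c2, c3⟩ := h3 n L D
  have cw : ∀ μ : W n, D.cf (D.w μ) = Finsupp.single μ 1 := by
    intro μ
    have := c1 (Finsupp.single μ 1)
    rwa [emb_single, one_smul] at this
  -- gauge components
  have q4 : ∀ y ∈ D.S, ∀ l : ℤ, D.g.p l y ∈ D.S ∧
      ∀ μ : W n, D.cf (D.g.p l y) μ = if (μ.length : ℤ) = l then D.cf y μ else 0 := by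
    intro y hy l
    have e : D.g.p l y = D.emb ((D.cf y).filter (fun μ : W n => (μ.length : ℤ) = l)) := by
      rw [← g_emb h2, c2 y hy]
    constructor
    · rw [e]
      exact c3 _
    · intro μ
      rw [e, c1, Finsupp.filter_apply]
  have q6 : ∀ y ∈ D.S, ∀ k : ℕ, y ∈ D.Sge k ↔ ∀ μ : W n, D.cf y μ ≠ 0 → k ≤ μ.length := by
    intro y hy k
    constructor
    · intro hk μ hμ
      by_contra hlt
      apply hμ
      have : ∀ z ∈ D.Sge k, D.cf z μ = 0 := by
        intro z hz
        unfold Sys.Sge at hz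
        induction hz using Submodule.span_induction with
        | mem x hx =>
          obtain ⟨ν, hν, rfl⟩ := hx
          rw [cw, Finsupp.single_apply, if_neg]
          intro hνμ
          rw [hνμ] at hν
          exact hlt hν
        | zero => rw [map_zero, Finsupp.zero_apply]
        | add a b _ _ ha hb => rw [map_add, Finsupp.add_apply, ha, hb, add_zero]
        | smul c a _ ha => rw [map_smul, Finsupp.smul_apply, ha, smul_zero]
      exact this y hk
    · intro h
      rw [← c2 y hy]
      unfold Sys.emb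
      rw [Finsupp.linearCombination_apply, Finsupp.sum]
      apply Submodule.sum_mem
      intro μ hμ
      apply Submodule.smul_mem
      exact w_mem_Sge D k μ (h μ (Finsupp.mem_support_iff.mp hμ))
  refine ⟨?_, ?_, ?_, q4, ?_, q6⟩
  · intro y hy z hz
    refine span_mul_mem ?_ hy hz
    rintro _ ⟨μ, rfl⟩ _ ⟨ν, rfl⟩
    rw [← a1]
    exact w_mem_S D _
  · intro k y hy z hz
    refine span_mul_mem ?_ hy hz
    rintro _ ⟨μ, hμ, rfl⟩ _ ⟨ν, rfl⟩
    rw [← a1]
    apply w_mem_Sge
    rw [List.length_append]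
    omega
  · intro s hs y hy j
    have : ∀ s ∈ D.S, D.b.p j s * y ∈ D.S := by
      intro s hs
      unfold Sys.S at hs
      induction hs using Submodule.span_induction with
      | mem x hx =>
        obtain ⟨μ, rfl⟩ := hx
        have h5 : ∀ y ∈ D.Sge D.m0, D.b.p j (D.w μ) * y ∈ D.S := by
          intro y hy
          unfold Sys.Sge at hy
          induction hy using Submodule.span_induction with
          | mem x hx =>
            obtain ⟨κ, hκ, rfl⟩ := hx
            exact D.UL μ κ j hκ
          | zero => rw [mul_zero]; exact Submodule.zero_mem _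
          | add a b _ _ ha hb => rw [mul_add]; exact Submodule.add_mem _ ha hb
          | smul c a _ ha => rw [mul_smul_comm]; exact Submodule.smul_mem _ _ ha
        exact h5 y hy
      | zero => rw [map_zero, zero_mul]; exact Submodule.zero_mem _
      | add a b _ _ ha hb => rw [map_add, add_mul]; exact Submodule.add_mem _ ha hb
      | smul c a _ ha => rw [map_smul, smul_mul_assoc]; exact Submodule.smul_mem _ _ ha
    exact this s hs
  · intro y hy k h
    rw [q6 y hy k]
    intro μ hμ
    by_contra hlt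
    apply hμ
    have e := (q4 y hy (μ.length : ℤ)).2 μ
    rw [if_pos rfl, h (μ.length : ℤ) (by omega), map_zero, Finsupp.zero_apply] at e
    exact e.symm

end Pool.Agent.Helper90.SI
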