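import Pool.Agent.Helper99.SI.StB

set_option autoImplicit false

/-!
# Project SI, module B7: base positivity
-/

namespace Pool.Agent.Helper90.SI

open Pool.Agent.Helper99.SI

theorem b7_inj {α β M : Type} [AddCommMonoid M] (g : α → β) (hg : Function.Injective g)
    (f : β → M) (h : ∀ b, b ∉ Set.range g → f b = 0) : ∑ᶠ b, f b = ∑ᶠ a, f (g a) := by
  rw [← finsum_mem_range hg, finsum_mem_def, Set.indicator_eq_self.2]
  intro b hb
  by_contra hn
  exact hb (h b hn)

theorem b7_fin {n r : ℕ} (K : ℕ) : {i : Idx n r | ilen i ≤ K}.Finite := by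
  have h1 : {ν : W n | ν.length ≤ K}.Finite := List.finite_length_le (Fin n) K
  have h2 : {i : Idx n r | ilen i ≤ K} ⊆
      (fun ν : W n => (Sum.inl (Sum.inl ν) : Idx n r)) '' {ν : W n | ν.length ≤ K} ∪
      (fun ν : W n => (Sum.inl (Sum.inr ν) : Idx n r)) '' {ν : W n | ν.length ≤ K} ∪
      Set.range (fun a : Fin r => (Sum.inr a : Idx n r)) := by
    rintro ((ν | ν) | a) hi
    · exact Or.inl (Or.inl ⟨ν, hi, rfl⟩)
    · exact Or.inl (Or.inr ⟨ν, hi, rfl⟩)
    · exact Or.inr ⟨a, rfl⟩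
  exact (((h1.image _).union (h1.image _)).union (Set.finite_range _)).subset h2

theorem hB7 (h1 : StA0) (h2 : StA7) (h3 : StB3) (h4 : StB5) (h5 : StB6) : StB7 := by
  intro n L _ _ _ _ _ D X0 m hm
  have _ := h2
  have _ := h3
  obtain ⟨t1, ht1, hB5⟩ := h4 n L D X0 m hm
  refine ⟨t1, ht1, ?_⟩
  intro t ht0 ht s hs0 hs1 z hz hker
  have htne : (t : ℂ) ≠ 0 := by
    rw [Ne, Complex.ofReal_eq_zero]
    exact ht0.ne'
  -- z is bounded
  have hbdd : ∃ c : ℝ, ∀ i, ‖z i‖ ≤ c := by
    refine ⟨(∑' i, ‖z i‖ ^ 2) + 1, fun i => ?_⟩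
    have h6 : ‖z i‖ ^ 2 ≤ ∑' i, ‖z i‖ ^ 2 := hz.le_tsum i fun j _ => sq_nonneg _
    have h7 := norm_nonneg (z i)
    nlinarith [sq_nonneg (‖z i‖ - 1)]
  have hY : ∀ j : ℤ, ∑ᶠ i : Idx n m.r, z i • D.b.p j (m.piT D t i) = 0 :=
    fun j => hB5 t ht0 ht s hs0 hs1 z hbdd hker j
  -- dummies
  have hFc : ∀ (i' i : Idx n m.r), m.Fc t i' i = ∑ j ∈ m.Z, (t : ℂ) ^ j * m.F j i' i := by
    intro i' i
    unfold MData.Fc
    rw [Finsupp.finsetSum_apply]
    rfl
  have hd : ∀ ν : W n, ν.length < m.M →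
      z (Sum.inl (Sum.inl ν)) = 0 ∧ z (Sum.inl (Sum.inr ν)) = 0 := by
    intro ν hν
    constructor
    · rw [hker (Sum.inl (Sum.inl ν))]
      rw [finsum_eq_zero_of_forall_eq_zero, mul_zero]
      intro i'
      rw [hFc, Finset.sum_eq_zero, zero_mul]
      intro j _
      rw [(hm.dum2 j ν hν i').1, mul_zero]
    · rw [hker (Sum.inl (Sum.inr ν))]
      rw [finsum_eq_zero_of_forall_eq_zero, mul_zero]
      intro i'
      rw [hFc, Finset.sum_eq_zero, zero_mul]
      intro j _
      rw [(hm.dum2 j ν hν i').2, mul_zero]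
  -- the degrees of the further basis vectors
  obtain ⟨J0, hJ1, hJ0⟩ : ∃ J0 : ℤ, 1 ≤ J0 ∧ ∀ (a : Fin m.r) (j : ℤ), J0 ≤ j ∨ J0 ≤ -j →
      D.b.p j (m.piT D t (Sum.inr a)) = 0 := by
    have hfin : (⋃ a : Fin m.r, {j : ℤ | D.b.p j (m.piT D t (Sum.inr a)) ≠ 0}).Finite :=
      Set.finite_iUnion fun a => D.b.fin _
    obtain ⟨A, hA⟩ := hfin.bddAbove
    obtain ⟨B, hB⟩ := hfin.bddBelow
    refine ⟨max 1 (max (A + 1) (1 - B)), le_max_left _ _, ?_⟩
    intro a j hj
    by_contra hne
    have hmem : j ∈ ⋃ a : Fin m.r, {j : ℤ | D.b.p j (m.piT D t (Sum.inr a)) ≠ 0} :=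
      Set.mem_iUnion.mpr ⟨a, hne⟩
    have h8 := hA hmem
    have h9 := hB hmem
    rcases hj with hj | hj <;> omega
  have hst : ∀ (j : ℤ) (y : L), D.b.p j (star y) = star (D.b.p (-j) y) := by
    intro j y
    have := D.b.st (-j) y
    rwa [neg_neg] at this
  -- words
  have hw : ∀ j : ℤ, J0 ≤ j →
      ∑ᶠ ν : W n, z (Sum.inl (Sum.inl ν)) • D.b.p j (D.w ν) = 0 := by
    intro j hj
    have e1 := hY j
    rw [b7_inj (fun ν : W n => (Sum.inl (Sum.inl ν) : Idx n m.r))
      (fun a b hab => by simpa using hab)] at e1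
    · have e2 : ∀ ν : W n, z (Sum.inl (Sum.inl ν)) • D.b.p j (m.piT D t (Sum.inl (Sum.inl ν))) =
          (t : ℂ) ^ j • (z (Sum.inl (Sum.inl ν)) • D.b.p j (D.w ν)) := by
        intro ν
        by_cases hν : m.M ≤ ν.length
        · change z (Sum.inl (Sum.inl ν)) • D.b.p j (if m.M ≤ ν.length then D.b.ev (t : ℂ) (D.w ν)
            else 0) = _
          rw [if_pos hν, (h1 L D.b).2.2.2.2.2.2.1, smul_comm]
        · rw [(hd ν (by omega)).1, zero_smul, zero_smul, smul_zero]
      rw [finsum_congr e2, ← smul_finsum] at e1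
      exact (smul_eq_zero.mp e1).resolve_left (zpow_ne_zero _ htne)
    · rintro ((ν | ν) | a) hi
      · exact absurd ⟨ν, rfl⟩ hi
      · have : D.b.p j (m.piT D t (Sum.inl (Sum.inr ν))) = 0 := by
          change D.b.p j (if m.M ≤ ν.length then star (D.w ν) else 0) = 0
          split_ifs with hν
          · rw [hst, hm.pos ν hν (-j) (by omega), star_zero]
          · rw [map_zero]
        rw [this, smul_zero]
      · rw [hJ0 a j (Or.inl hj), smul_zero]
  -- ghosts
  have hg : ∀ j : ℤ, J0 ≤ j →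
      ∑ᶠ ν : W n, star (z (Sum.inl (Sum.inr ν))) • D.b.p j (D.w ν) = 0 := by
    intro j hj
    have e1 := hY (-j)
    rw [b7_inj (fun ν : W n => (Sum.inl (Sum.inr ν) : Idx n m.r))
      (fun a b hab => by simpa using hab)] at e1
    · have e2 : ∀ ν : W n, z (Sum.inl (Sum.inr ν)) • D.b.p (-j) (m.piT D t (Sum.inl (Sum.inr ν))) =
          star (star (z (Sum.inl (Sum.inr ν))) • D.b.p j (D.w ν)) := by
        intro ν
        by_cases hν : m.M ≤ ν.length
        · change z (Sum.inl (Sum.inr ν)) • D.b.p (-j) (if m.M ≤ ν.length then star (D.w ν)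
            else 0) = _
          rw [if_pos hν, hst, neg_neg, star_smul, star_star]
        · rw [(hd ν (by omega)).2, zero_smul, star_zero, zero_smul, star_zero]
      have e3 := (starAddEquiv : L ≃+ L).map_finsum
        (fun ν : W n => star (z (Sum.inl (Sum.inr ν))) • D.b.p j (D.w ν))
      rw [finsum_congr e2] at e1
      change star (∑ᶠ ν : W n, star (z (Sum.inl (Sum.inr ν))) • D.b.p j (D.w ν)) =
        ∑ᶠ ν : W n, star (star (z (Sum.inl (Sum.inr ν))) • D.b.p j (D.w ν)) at e3
      rw [e1] at e3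
      exact star_eq_zero.mp e3
    · rintro ((ν | ν) | a) hi
      · have : D.b.p (-j) (m.piT D t (Sum.inl (Sum.inl ν))) = 0 := by
          change D.b.p (-j) (if m.M ≤ ν.length then D.b.ev (t : ℂ) (D.w ν) else 0) = 0
          split_ifs with hν
          · rw [(h1 L D.b).2.2.2.2.2.2.1, hm.pos ν hν (-j) (by omega), smul_zero]
          · rw [map_zero]
        rw [this, smul_zero]
      · exact absurd ⟨ν, rfl⟩ hi
      · rw [hJ0 a (-j) (Or.inr (by omega)), smul_zero]
  obtain ⟨g1, hg1⟩ := h5 n L D m.M hm.pos (fun ν => z (Sum.inl (Sum.inl ν))) J0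
    (fun ν hν => (hd ν hν).1) hw
  obtain ⟨g2, hg2⟩ := h5 n L D m.M hm.pos (fun ν => star (z (Sum.inl (Sum.inr ν)))) J0
    (fun ν hν => by rw [(hd ν hν).2, star_zero]) hg
  -- finite support
  have hfin : (Function.support z).Finite := by
    apply (b7_fin (n := n) (r := m.r) (max g1 g2)).subset
    rintro ((ν | ν) | a) hi
    · rw [Function.mem_support] at hi
      change ν.length ≤ max g1 g2
      by_contra hlt
      exact hi (hg1 ν (by omega))
    · rw [Function.mem_support] at hi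
      change ν.length ≤ max g1 g2
      by_contra hlt
      exact hi (star_eq_zero.mp (hg2 ν (by omega)))
    · exact Nat.zero_le _
  set z' : Idx n m.r →₀ ℂ := Finsupp.ofSupportFinite z hfin with hz'
  have hz'a : ∀ i, z' i = z i := fun i => rfl
  have hsub : ∀ i, i ∉ z'.support → z i = 0 := by
    intro i hi
    rwa [Finsupp.notMem_support_iff] at hi
  -- the image is zero
  have hpi : m.piV D t z' = 0 := by
    have e1 : m.piV D t z' = ∑ i ∈ z'.support, z i • m.piT D t i := by
      unfold MData.piV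
      rw [Finsupp.linearCombination_apply]
      rfl
    have e2 : ∀ j : ℤ, D.b.p j (m.piV D t z') = 0 := by
      intro j
      rw [e1, map_sum, ← hY j]
      symm
      rw [finsum_eq_sum_of_support_subset (s := z'.support)]
      · apply Finset.sum_congr rfl
        intro i _
        rw [map_smul]
      · intro i hi
        rw [Function.mem_support] at hi
        rw [Finset.mem_coe]
        by_contra hn
        exact hi (by rw [hsub i hn, zero_smul])
    rw [← D.b.sum (m.piV D t z')]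
    exact finsum_eq_zero_of_forall_eq_zero e2
  obtain ⟨k, hk⟩ := hm.nil t ht0 z' hpi
  have hstep : z' = (s : ℂ) • m.Fl t z' := by
    ext i
    rw [hz'a, hker i, Finsupp.smul_apply, smul_eq_mul]
    congr 1
    unfold MData.Fl
    rw [Finsupp.linearCombination_apply, Finsupp.sum, Finsupp.finsetSum_apply,
      finsum_eq_sum_of_support_subset (s := z'.support)]
    · apply Finset.sum_congr rfl
      intro i' _
      rw [Finsupp.smul_apply, smul_eq_mul, hz'a, mul_comm]
    · intro i' hi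
      rw [Function.mem_support] at hi
      rw [Finset.mem_coe]
      by_contra hn
      exact hi (by rw [hsub i' hn, mul_zero])
  have hpow : ∀ k : ℕ, z' = (s : ℂ) ^ k • (m.Fl t ^ k) z' := by
    intro k
    induction k with
    | zero => simp
    | succ k ih =>
      have e1 : (m.Fl t ^ (k + 1)) z' = (m.Fl t ^ k) (m.Fl t z') := by
        rw [pow_succ]
        rfl
      rw [e1, pow_succ, mul_smul, ← map_smul, ← hstep]
      exact ih
  have hz0 : z' = 0 := by
    rw [hpow k, hk, smul_zero]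
  funext i
  rw [← hz'a, hz0]
  rfl

end Pool.Agent.Helper90.SI
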