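import Pool.Agent.Helper99.SI.StF

set_option autoImplicit false

/-!
# Project SI, module F5: edges on the level of operators
-/

namespace Pool.Agent.Helper90.SI

open Pool.Agent.Helper99.SI Filter Topology

section

variable {I : Type} [DecidableEq I]

/-- Finitely supported functions as elements of L2. -/
noncomputable def f5E : (I →₀ ℂ) →ₗ[ℂ] L2 I :=
  Finsupp.linearCombination ℂ (fun i => (eb i : L2 I))

theorem f5E_apply (z : I →₀ ℂ) (i : I) : (f5E z : L2 I) i = z i := by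
  induction z using Finsupp.induction_linear with
  | zero => rw [map_zero, lp.coeFn_zero]; rfl
  | add f g hf hg => rw [map_add, lp.coeFn_add, Pi.add_apply, hf, hg, Finsupp.add_apply]
  | single j c =>
    unfold f5E
    rw [Finsupp.linearCombination_single, lp.coeFn_smul, Pi.smul_apply]
    unfold eb
    rw [lp.coeFn_single, smul_eq_mul, Finsupp.single_apply, Pi.single_apply]
    by_cases h : i = j
    · rw [if_pos h, if_pos h.symm, mul_one]
    · rw [if_neg h, if_neg (Ne.symm h), mul_zero]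

theorem f5_dense (f : L2 I) : f ∈ closure (Set.range (f5E : (I →₀ ℂ) → L2 I)) := by
  have h := lp.hasSum_single (E := fun _ : I => ℂ) (p := 2) (by norm_num) f
  apply mem_closure_of_tendsto h
  apply Eventually.of_forall
  intro s
  refine ⟨∑ i ∈ s, Finsupp.single i (f i), ?_⟩
  rw [map_sum]
  apply Finset.sum_congr rfl
  intro i _
  unfold f5E
  rw [Finsupp.linearCombination_single]
  unfold eb
  rw [← lp.single_smul, smul_eq_mul, mul_one]

end

/-- An operator which is hermitian and at least 1 has dense range. -/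
theorem f5_G_dense {H : Type} [NormedAddCommGroup H] [InnerProductSpace ℂ H] [CompleteSpace H]
    (G : H →L[ℂ] H) (hsa : ∀ y z, inner ℂ (G y) z = inner ℂ y (G z))
    (hge : ∀ z, ‖z‖ ^ 2 ≤ (inner ℂ z (G z)).re) : DenseRange G := by
  have h1 : (LinearMap.range (G : H →ₗ[ℂ] H)).topologicalClosure = ⊤ := by
    rw [Submodule.topologicalClosure_eq_top_iff, Submodule.eq_bot_iff]
    intro w hw
    rw [Submodule.mem_orthogonal] at hw
    have h2 : inner ℂ (G w) w = 0 := hw (G w) ⟨w, rfl⟩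
    have h3 := hge w
    rw [hsa] at h2
    rw [h2, Complex.zero_re] at h3
    have h4 : ‖w‖ = 0 := by
      have := sq_nonneg ‖w‖
      have h5 : ‖w‖ ^ 2 = 0 := le_antisymm h3 this
      exact pow_eq_zero_iff (two_ne_zero) |>.mp h5
    exact norm_eq_zero.mp h4
  have h2 : Dense ((LinearMap.range (G : H →ₗ[ℂ] H) : Submodule ℂ H) : Set H) := by
    rw [← Submodule.dense_iff_topologicalClosure_eq_top] at h1
    exact h1
  exact h2

/-! ## Finite rank operators -/

/-- The finite rank operator with the vectors ka and the functionals la. -/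
noncomputable def f5R {H : Type} [NormedAddCommGroup H] [InnerProductSpace ℂ H] {J A : Type}
    [Fintype J] [Fintype A] (e : J → H) (ka la : A → J → ℂ) : H →L[ℂ] H :=
  ∑ a, ∑ i, ∑ j, (ka a i * la a j) • ((innerSL ℂ (e j)).smulRight (e i))

theorem f5R_apply {H : Type} [NormedAddCommGroup H] [InnerProductSpace ℂ H] {J A : Type}
    [Fintype J] [Fintype A] (e : J → H) (ka la : A → J → ℂ) (y : H) :
    f5R e ka la y = ∑ a, (∑ j, la a j * inner ℂ (e j) y) • (∑ i, ka a i • e i) := by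
  unfold f5R
  rw [sum_apply]
  apply Finset.sum_congr rfl
  intro a _
  rw [sum_apply, Finset.smul_sum]
  apply Finset.sum_congr rfl
  intro i _
  rw [sum_apply, Finset.sum_smul]
  apply Finset.sum_congr rfl
  intro j _
  rw [smul_apply, ContinuousLinearMap.smulRight_apply, innerSL_apply_apply,
    smul_smul, smul_smul]
  congr 1
  ring

theorem f5R_cont {H : Type} [NormedAddCommGroup H] [InnerProductSpace ℂ H] {J A : Type}
    [Fintype J] [Fintype A] (e : J → H) (U : Set ℝ) (ka la : ℝ → A → J → ℂ)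
    (h1 : ∀ a i, ContinuousOn (fun x => ka x a i) U)
    (h2 : ∀ a i, ContinuousOn (fun x => la x a i) U) :
    ContinuousOn (fun x => f5R e (ka x) (la x)) U := by
  unfold f5R
  refine continuousOn_finsetSum _ fun a _ => ?_
  refine continuousOn_finsetSum _ fun i _ => ?_
  refine continuousOn_finsetSum _ fun j _ => ?_
  exact ((h1 a i).mul (h2 a j)).smul continuousOn_const

/-! ## The operator at a point -/

section

variable {n : ℕ} {L : Type} [Ring L] [Algebra ℂ L] [StarRing L]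

theorem f5_Ph {D : Sys n L} {m : MData n L} {J0 : Finset (Idx n m.r)} (P : OpPack D m J0)
    (t : ℝ) (ht : 0 < t) (z : Idx n m.r →₀ ℂ) : P.Ph t (f5E z) = f5E (m.Fl t z) := by
  apply lp.ext
  funext i
  rw [P.Phs t ht, f5E_apply]
  unfold MData.Fl
  rw [Finsupp.linearCombination_apply, Finsupp.sum, Finsupp.finsetSum_apply,
    finsum_eq_sum_of_support_subset (s := z.support)]
  · apply Finset.sum_congr rfl
    intro i' _
    rw [Finsupp.smul_apply, smul_eq_mul, f5E_apply, mul_comm]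
  · intro i' hi
    rw [Function.mem_support] at hi
    rw [Finset.mem_coe, Finsupp.mem_support_iff]
    intro hn
    exact hi (by rw [f5E_apply, hn, mul_zero])

theorem f5_G {D : Sys n L} {m : MData n L} {J0 : Finset (Idx n m.r)} (P : OpPack D m J0)
    (u : ℝ) (hu : 0 < u) (z : Idx n m.r →₀ ℂ) (hz : ∀ i, z i ≠ 0 → ilen i < m.M2) :
    P.G u (f5E z) = f5E z := by
  unfold f5E
  rw [Finsupp.linearCombination_apply, Finsupp.sum, map_sum]
  apply Finset.sum_congr rfl
  intro i hi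
  rw [map_smul, P.Gsh u hu i (hz i (Finsupp.mem_support_iff.mp hi))]

theorem f5_E_J {D : Sys n L} {m : MData n L} {J0 : Finset (Idx n m.r)} (P : OpPack D m J0)
    (z : Idx n m.r →₀ ℂ) (hz : ∀ i, z i ≠ 0 → ilen i < m.M2) :
    (∑ i : {i // i ∈ P.J}, z i.1 • eJ P.J i) = f5E z := by
  have e1 : (∑ i : {i // i ∈ P.J}, z i.1 • eJ P.J i) =
      ∑ i ∈ P.J, z i • (eb i : L2 (Idx n m.r)) :=
    Finset.sum_coe_sort P.J (fun i => z i • (eb i : L2 (Idx n m.r)))
  rw [e1]
  unfold f5E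
  rw [Finsupp.linearCombination_apply, Finsupp.sum]
  symm
  apply Finset.sum_subset
  · intro i hi
    exact P.JM2 i (hz i (Finsupp.mem_support_iff.mp hi))
  · intro i _ hi
    rw [Finsupp.notMem_support_iff.mp hi, zero_smul]

theorem f5_lam {D : Sys n L} {m : MData n L} {J0 : Finset (Idx n m.r)} (P : OpPack D m J0)
    (hin : ∀ (j : {i // i ∈ P.J}) (z : L2 (Idx n m.r)), inner ℂ (eJ P.J j) z = z j.1)
    (t : ℝ) (lam : L →ₗ[ℂ] ℂ) (hl : ∀ i ∉ J0, lam (m.piT D t i) = 0) (z : Idx n m.r →₀ ℂ) :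
    (∑ j : {i // i ∈ P.J}, lam (m.piT D t j.1) * inner ℂ (eJ P.J j) (f5E z)) =
      lam (m.piV D t z) := by
  have e0 : (∑ j : {i // i ∈ P.J}, lam (m.piT D t j.1) * inner ℂ (eJ P.J j) (f5E z)) =
      ∑ j : {i // i ∈ P.J}, lam (m.piT D t j.1) * z j.1 := by
    apply Finset.sum_congr rfl
    intro j _
    rw [hin, f5E_apply]
  have e1 : (∑ j : {i // i ∈ P.J}, lam (m.piT D t j.1) * z j.1) =
      ∑ i ∈ P.J, lam (m.piT D t i) * z i :=
    Finset.sum_coe_sort P.J (fun i => lam (m.piT D t i) * z i)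
  have e2 : lam (m.piV D t z) = ∑ i ∈ z.support, lam (m.piT D t i) * z i := by
    unfold MData.piV
    rw [Finsupp.linearCombination_apply, Finsupp.sum, map_sum]
    apply Finset.sum_congr rfl
    intro i _
    rw [map_smul, smul_eq_mul, mul_comm]
  rw [e0, e1, e2]
  have e3 : ∑ i ∈ P.J, lam (m.piT D t i) * z i = ∑ i ∈ P.J ∪ z.support, lam (m.piT D t i) * z i := by
    apply Finset.sum_subset Finset.subset_union_left
    intro i _ hi
    rw [hl i (fun h => hi (P.J0J h)), zero_mul]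
  have e4 : ∑ i ∈ z.support, lam (m.piT D t i) * z i =
      ∑ i ∈ P.J ∪ z.support, lam (m.piT D t i) * z i := by
    apply Finset.sum_subset Finset.subset_union_right
    intro i _ hi
    rw [Finsupp.notMem_support_iff.mp hi, mul_zero]
  rw [e3, e4]

/-- The perturbed operator on finitely supported vectors. -/
theorem f5_T0 {D : Sys n L} {m : MData n L} {J0 : Finset (Idx n m.r)} (P : OpPack D m J0)
    (hin : ∀ (j : {i // i ∈ P.J}) (z : L2 (Idx n m.r)), inner ℂ (eJ P.J j) z = z j.1)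
    (s u : ℝ) (hu : 0 < u) {A : Type} [Fintype A] (lam : A → (L →ₗ[ℂ] ℂ))
    (k : A → (Idx n m.r →₀ ℂ)) (hk : ∀ a i, k a i ≠ 0 → ilen i < m.M2)
    (hl : ∀ a, ∀ i ∉ J0, lam a (m.piT D (u ^ P.n1) i) = 0) (z : Idx n m.r →₀ ℂ) :
    (P.TT s u + f5R (eJ P.J) (fun a (i : {i // i ∈ P.J}) => k a i.1)
      (fun a (j : {i // i ∈ P.J}) => lam a (m.piT D (u ^ P.n1) j.1))) (f5E z) =
    P.G u (f5E (z - (s : ℂ) • m.Fl (u ^ P.n1) z + ∑ a, lam a (m.piV D (u ^ P.n1) z) • k a)) := by
  rw [add_apply, f5R_apply]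
  have e1 : P.TT s u (f5E z) = P.G u (f5E (z - (s : ℂ) • m.Fl (u ^ P.n1) z)) := by
    unfold OpPack.TT
    rw [ContinuousLinearMap.comp_apply, sub_apply,
      smul_apply, f5_Ph P _ (pow_pos hu _), map_sub (f5E), map_smul f5E]
    rfl
  have e2 : ∀ a, (∑ j : {i // i ∈ P.J}, lam a (m.piT D (u ^ P.n1) j.1) *
      inner ℂ (eJ P.J j) (f5E z)) • (∑ i : {i // i ∈ P.J}, k a i.1 • eJ P.J i) =
      P.G u (f5E (lam a (m.piV D (u ^ P.n1) z) • k a)) := by
    intro a
    rw [f5_lam P hin _ (lam a) (hl a), f5_E_J P (k a) (hk a), map_smul f5E, map_smul (P.G u),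
      f5_G P u hu (k a) (hk a)]
  rw [e1, Finset.sum_congr rfl (fun a _ => e2 a), map_add f5E, map_add (P.G u), map_sum f5E,
    map_sum (P.G u)]

end

theorem f5_coer {H : Type} [NormedAddCommGroup H] [InnerProductSpace ℂ H] {J A : Type}
    [Fintype J] [Fintype A] (e : J → H) (ka la : A → J → ℂ) (T : H →L[ℂ] H) (h : Coer e T) :
    Coer e (T + f5R e ka la) := by
  obtain ⟨c, hc, h⟩ := h
  refine ⟨c, hc, fun z hz => ?_⟩
  have e1 : f5R e ka la z = 0 := by
    rw [f5R_apply]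
    apply Finset.sum_eq_zero
    intro a _
    rw [Finset.sum_eq_zero, zero_smul]
    intro j _
    rw [hz j, mul_zero]
  rw [add_apply, e1, add_zero]
  exact h z hz

theorem hF5 (h1 : StS1) (h2 : StS2) (h3 : StS4) (h4 : StS7) (h5 : StF0) (h6 : StF1) : StF5 := by
  intro n L _ _ _ _ _ D X0 m hm J0 P U sx ux hsx hux hdom A _ _ v lam k mm hk hkc hl0 hlc hbij hmm
  classical
  obtain ⟨heon, hin, hcoer⟩ := h5 n L D m J0 P
  have hu : ∀ x ∈ U, 0 < ux x := fun x hx => (hdom x hx).2.2.1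
  set ka : ℝ → A → {i // i ∈ P.J} → ℂ := fun x a i => k x a i.1 with hka
  set la : ℝ → A → {i // i ∈ P.J} → ℂ := fun x a j => lam x a (m.piT D (ux x ^ P.n1) j.1) with hla
  set T0 : ℝ → (L2 (Idx n m.r) →L[ℂ] L2 (Idx n m.r)) := fun x =>
    P.TT (sx x) (ux x) + f5R (eJ P.J) (ka x) (la x) with hT0
  have hc0 : ∀ x ∈ U, Coer (eJ P.J) (T0 x) := fun x hx =>
    f5_coer (eJ P.J) (ka x) (la x) _ (hcoer (sx x) (ux x) (hdom x hx))
  have hex : ∀ x ∈ U, ∃ S, SchurRel (eJ P.J) (T0 x) S := fun x hx =>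
    (h1 _ _ (eJ P.J) heon (T0 x) (hc0 x hx)).exists
  set S0 : ℝ → Matrix {i // i ∈ P.J} {i // i ∈ P.J} ℂ := fun x =>
    if hx : x ∈ U then (hex x hx).choose else 0 with hS0
  have hS0r : ∀ x ∈ U, SchurRel (eJ P.J) (T0 x) (S0 x) := by
    intro x hx
    rw [hS0]
    simp only
    rw [dif_pos hx]
    exact (hex x hx).choose_spec
  -- continuity
  have hTc : ContinuousOn T0 U := by
    have e1 : ContinuousOn (fun x => P.G (ux x)) U :=
      P.Gc.comp hux fun x hx => hu x hx
    have e2 : ContinuousOn (fun x => P.Ph (ux x ^ P.n1)) U :=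
      P.Phc.comp (hux.pow P.n1) fun x hx => pow_pos (hu x hx) _
    have e3 : ContinuousOn (fun x => ((sx x : ℝ) : ℂ)) U :=
      Complex.continuous_ofReal.comp_continuousOn hsx
    have e4 : ContinuousOn (fun x => P.TT (sx x) (ux x)) U := by
      unfold OpPack.TT
      exact e1.clm_comp (continuousOn_const.sub (e3.smul e2))
    have e5 : ContinuousOn (fun x => f5R (eJ P.J) (ka x) (la x)) U :=
      f5R_cont (eJ P.J) U ka la (fun a i => hkc a i.1) (fun a j => hlc a j.1)
    exact e4.add e5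
  refine ⟨S0, h2 _ _ (eJ P.J) heon ℝ U T0 S0 hTc hc0 hS0r, ?_⟩
  intro x hx
  have hux0 := hu x hx
  have hT0z := f5_T0 P hin (sx x) (ux x) hux0 (lam x) (k x) (fun a => (hk x hx a).2)
    (fun a => hl0 x hx a)
  have hT1 := h6 n L D X0 m hm (sx x) (ux x ^ P.n1) (pow_pos hux0 _) A v (lam x) (k x)
    (fun a => (hk x hx a).1) (hbij x hx)
  have hT0x : T0 x = P.TT (sx x) (ux x) + f5R (eJ P.J) (fun a (i : {i // i ∈ P.J}) => k x a i.1)
      (fun a (j : {i // i ∈ P.J}) => lam x a (m.piT D (ux x ^ P.n1) j.1)) := rfl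
  -- dense range
  have hdr : DenseRange (T0 x) := by
    have e1 : DenseRange (P.G (ux x)) := f5_G_dense _ (P.Gsa _ hux0) (P.Gge _ hux0)
    have e2 : DenseRange (f5E : (Idx n m.r →₀ ℂ) → L2 (Idx n m.r)) := f5_dense
    have e3 : DenseRange ((P.G (ux x)) ∘ (f5E : (Idx n m.r →₀ ℂ) → L2 (Idx n m.r))) :=
      e1.comp e2 (P.G (ux x)).continuous
    refine Dense.mono ?_ e3
    rintro _ ⟨z, rfl⟩
    obtain ⟨z', hz'⟩ := hT1.2 z
    refine ⟨f5E z', ?_⟩
    rw [hT0x, hT0z z', Function.comp_apply, ← hz']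
  refine ⟨h3 _ _ (eJ P.J) heon (T0 x) (S0 x) (hc0 x hx) (hS0r x hx) hdr, ?_⟩
  intro S hS
  choose zb hzb using fun b : A => hT1.2 (k x b)
  refine h4 _ _ (eJ P.J) heon A (P.TT (sx x) (ux x)) (T0 x) S (S0 x) (ka x) (la x)
    (fun b => f5E (zb b)) (mm x) (hcoer (sx x) (ux x) (hdom x hx)) hS (hS0r x hx) ?_ ?_ ?_
  · intro y
    rw [hT0x, add_apply, f5R_apply]
  · intro b
    rw [hT0x, hT0z (zb b)]
    have e1 := hzb b
    simp only at e1
    rw [e1, f5_G P _ hux0 (k x b) (hk x hx b).2, ← f5_E_J P (k x b) (hk x hx b).2]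
  · intro a b
    have e1 : ∑ j : {i // i ∈ P.J}, la x a j * inner ℂ (eJ P.J j) (f5E (zb b)) =
        lam x a (m.piV D (ux x ^ P.n1) (zb b)) :=
      f5_lam P hin (ux x ^ P.n1) (lam x a) (hl0 x hx a) (zb b)
    rw [e1]
    apply hmm x hx b
    have e2 := congrArg (m.piV D (ux x ^ P.n1)) (hzb b)
    simp only at e2
    rw [map_add, map_sub, map_smul, map_sum, hm.fpi _ (pow_pos hux0 _), (hk x hx b).1] at e2
    rw [← e2]
    congr 1
    apply Finset.sum_congr rfl
    intro a' _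
    rw [map_smul, (hk x hx a').1]

end Pool.Agent.Helper90.SI
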