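import Pool.Agent.Helper99.SI.StK

set_option autoImplicit false

/-!
# Project SI, module K13: the second grading is positive on cyclic words
-/

namespace Pool.Agent.Helper90.SI

open Pool.Agent.Helper99.SI
open Filter Topology

/-! ## Words and rotations -/

theorem k13_w_append {n : ℕ} {L : Type} [Ring L] [Algebra ℂ L] [StarRing L] (D : Sys n L)
    (μ ν : W n) : D.w (μ ++ ν) = D.w μ * D.w ν := by
  unfold Sys.w wd
  rw [List.map_append, List.prod_append]

theorem k13_w_nil {n : ℕ} {L : Type} [Ring L] [Algebra ℂ L] [StarRing L] (D : Sys n L) :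
    D.w ([] : W n) = 1 := by
  unfold Sys.w wd
  simp

theorem k13_trace_rotate {n d : ℕ} (X : Fin n → Matrix (Fin d) (Fin d) ℂ) (i : ℕ) :
    ∀ ν : W n, (((ν.rotate i).map X).prod).trace = ((ν.map X).prod).trace := by
  induction i with
  | zero => intro ν; rw [List.rotate_zero]
  | succ i ih =>
    intro ν
    cases ν with
    | nil => simp
    | cons x t =>
      rw [List.rotate_cons_succ, ih, List.map_append, List.prod_append, Matrix.trace_mul_comm]
      simp

theorem k13_rotc_rotate_one {n : ℕ} (a b : W n) : rotc a (b.rotate 1) = rotc a b := by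
  unfold rotc
  rw [List.length_rotate]
  by_cases h : a.length = b.length
  · rw [if_pos h, if_pos h]
    rcases Nat.eq_zero_or_pos b.length with h0 | h0
    · rw [h0]; simp
    · set k := b.length with hk
      symm
      apply Finset.card_bij' (i := fun j _ => (j + 1) % k) (j := fun i _ => (i + (k - 1)) % k)
      · intro j hj
        rw [Finset.mem_filter, Finset.mem_range] at hj ⊢
        refine ⟨Nat.mod_lt _ h0, ?_⟩
        rw [← h, List.rotate_mod, ← List.rotate_rotate, hj.2]
      · intro i hi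
        rw [Finset.mem_filter, Finset.mem_range] at hi ⊢
        refine ⟨Nat.mod_lt _ h0, ?_⟩
        rw [← h, List.rotate_mod]
        apply List.rotate_injective 1
        change (a.rotate (i + (a.length - 1))).rotate 1 = b.rotate 1
        rw [List.rotate_rotate, h]
        have e : i + (k - 1) + 1 = k + i := by omega
        rw [e, ← List.rotate_rotate]
        have e2 : a.rotate k = a := by rw [← h]; exact List.rotate_length a
        rw [e2, hi.2]
      · intro j hj
        rw [Finset.mem_filter, Finset.mem_range] at hj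
        rw [Nat.mod_add_mod]
        have e : j + 1 + (k - 1) = j + k := by omega
        rw [e, Nat.add_mod_right]
        exact Nat.mod_eq_of_lt hj.1
      · intro i hi
        rw [Finset.mem_filter, Finset.mem_range] at hi
        rw [Nat.mod_add_mod]
        have e : i + (k - 1) + 1 = i + k := by omega
        rw [e, Nat.add_mod_right]
        exact Nat.mod_eq_of_lt hi.1
  · rw [if_neg h, if_neg h]

theorem k13_rotc_rotate {n : ℕ} (a b : W n) (m : ℕ) : rotc a (b.rotate m) = rotc a b := by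
  induction m with
  | zero => rw [List.rotate_zero]
  | succ m ih => rw [← List.rotate_rotate, k13_rotc_rotate_one, ih]

theorem k13_rotc_self {n : ℕ} (b : W n) (hb : b ≠ []) : 0 < rotc b b := by
  unfold rotc
  rw [if_pos rfl]
  apply Finset.card_pos.mpr
  refine ⟨0, ?_⟩
  rw [Finset.mem_filter, Finset.mem_range]
  exact ⟨List.length_pos_iff.mpr hb, List.rotate_zero b⟩

theorem k13_rotc_ne {n : ℕ} (c b : W n) (h : rotc c b ≠ 0) :
    c.length = b.length ∧ ∃ i, c.rotate i = b := by
  unfold rotc at h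
  split_ifs at h with hl
  · obtain ⟨i, hi⟩ := Finset.card_pos.mp (Nat.pos_of_ne_zero h)
    rw [Finset.mem_filter] at hi
    exact ⟨hl, i, hi.2⟩
  · exact absurd rfl h

/-- The sum of a rotation invariant function over the rotations of a word. -/
theorem k13_rotsum {n : ℕ} (f : W n → ℂ) (hf : ∀ (c : W n) (i : ℕ), f (c.rotate i) = f c)
    (ν : W n) (hν : ν ≠ []) :
    ∑ᶠ c : W n, (c.length : ℂ)⁻¹ * (rotc ν c : ℂ) * f c = f ν := by
  classical
  have hk : (ν.length : ℂ) ≠ 0 := by
    rw [Nat.cast_ne_zero]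
    exact fun h => hν (List.length_eq_zero_iff.mp h)
  set C : Finset (W n) := (Finset.range ν.length).image (fun i => ν.rotate i) with hC
  have hCmem : ∀ c ∈ C, c.length = ν.length ∧ f c = f ν := by
    intro c hc
    rw [hC, Finset.mem_image] at hc
    obtain ⟨i, -, rfl⟩ := hc
    exact ⟨List.length_rotate _ _, hf ν i⟩
  rw [finsum_eq_sum_of_support_subset (s := C)]
  · have h1 : ∀ c ∈ C, (c.length : ℂ)⁻¹ * (rotc ν c : ℂ) * f c =
        ((ν.length : ℂ)⁻¹ * f ν) *
          ((((Finset.range ν.length).filter fun i => ν.rotate i = c).card : ℕ) : ℂ) := by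
      intro c hc
      obtain ⟨h1, h2⟩ := hCmem c hc
      unfold rotc
      rw [h1, if_pos rfl, h2]
      ring
    rw [Finset.sum_congr rfl h1, ← Finset.mul_sum, ← Nat.cast_sum, hC,
      ← Finset.card_eq_sum_card_image, Finset.card_range]
    field_simp
  · intro c hc
    rw [Function.mem_support] at hc
    have hr : rotc ν c ≠ 0 := by
      intro h
      apply hc
      rw [h]; simp
    unfold rotc at hr
    split_ifs at hr with hl
    · obtain ⟨i, hi⟩ := Finset.card_pos.mp (Nat.pos_of_ne_zero hr)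
      rw [Finset.mem_filter, ← hl] at hi
      rw [hC, Finset.mem_coe, Finset.mem_image]
      exact ⟨i, hi.1, hi.2⟩
    · exact absurd rfl hr

/-! ## Gradings -/

theorem k13_bdd {L : Type} [Ring L] [Algebra ℂ L] [StarRing L] (B : ZGr L) (y : L) :
    ∃ A : ℤ, ∀ i < A, B.p i y = 0 := by
  obtain ⟨A, hA⟩ := (B.fin y).bddBelow
  refine ⟨A, fun i hi => ?_⟩
  by_contra h
  have := hA (show i ∈ {j : ℤ | B.p j y ≠ 0} from h)
  omega

theorem k13_bdd_above {L : Type} [Ring L] [Algebra ℂ L] [StarRing L] (B : ZGr L) (y : L) :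
    ∃ A : ℕ, ∀ i : ℤ, B.p i y ≠ 0 → i ≤ A := by
  obtain ⟨A, hA⟩ := (B.fin y).bddAbove
  refine ⟨A.toNat, fun i hi => ?_⟩
  have := hA (show i ∈ {j : ℤ | B.p j y ≠ 0} from hi)
  omega

theorem k13_low_mul (h0 : StA0) {L : Type} [Ring L] [Algebra ℂ L] [StarRing L] [StarModule ℂ L]
    (B : ZGr L) (y z : L) (A C : ℤ) (hy : ∀ i < A, B.p i y = 0) (hz : ∀ i < C, B.p i z = 0) :
    ∀ k < A + C, B.p k (y * z) = 0 := by
  intro k hk
  rw [(h0 L B).1]
  apply finsum_eq_zero_of_forall_eq_zero
  intro i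
  rcases lt_or_ge i A with h | h
  · rw [hy i h, zero_mul]
  · rw [hz (k - i) (by omega), mul_zero]

/-- A linear map applied to β_z y. -/
theorem k13_ev_sum {L : Type} [Ring L] [Algebra ℂ L] [StarRing L]
    (B : ZGr L) (z : ℂ) (y : L) (s : Finset ℤ) (hs : ∀ j, B.p j y ≠ 0 → j ∈ s) :
    B.ev z y = ∑ j ∈ s, z ^ j • B.p j y := by
  change ∑ᶠ j : ℤ, z ^ j • B.p j y = _
  apply finsum_eq_sum_of_support_subset
  intro j hj
  rw [Function.mem_support] at hj
  apply hs
  intro h
  apply hj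
  rw [h, smul_zero]

/-! ## The trace attached to a function on words -/

theorem k13_fin (k3 : StK3) {n : ℕ} {L : Type} [Ring L] [Algebra ℂ L] [StarRing L]
    [StarModule ℂ L] [Nontrivial L] (D : Sys n L) (f : W n → ℂ) (y : L)
    (hz : ∀ b : W n, b ≠ [] → D.tau b 0 = 0) :
    (Function.support fun c : W n => (c.length : ℂ)⁻¹ * D.tau c y * f c).Finite := by
  obtain ⟨K, hK⟩ := k13_bdd_above D.g y
  apply (List.finite_length_le (Fin n) K).subset
  intro c hc
  rw [Function.mem_support] at hc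
  have hcne : c ≠ [] := by
    rintro rfl
    apply hc
    simp
  have ht : D.tau c y ≠ 0 := by
    intro h
    apply hc
    rw [h]; simp
  have hg := (k3 n L D c hcne).2 (c.length : ℤ) y
  rw [if_pos rfl] at hg
  have hgne : D.g.p (c.length : ℤ) y ≠ 0 := by
    intro h
    rw [h, hz c hcne] at hg
    exact ht hg.symm
  have := hK _ hgne
  change c.length ≤ K
  omega

theorem k13_tau_zero (k2 : StK2) {n : ℕ} {L : Type} [Ring L] [Algebra ℂ L] [StarRing L]
    [StarModule ℂ L] [Nontrivial L] (D : Sys n L) (b : W n) (hb : b ≠ []) : D.tau b 0 = 0 := by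
  have := (k2 n L D b hb).2.2.1 0 0
  simpa using this

/-- The functional T_f(y) = sum over c of (1/|c|) tau_c(y) f(c). -/
theorem k13_T (k2 : StK2) (k3 : StK3) {n : ℕ} {L : Type} [Ring L] [Algebra ℂ L] [StarRing L]
    [StarModule ℂ L] [Nontrivial L] (D : Sys n L) (f : W n → ℂ) :
    ∃ T : L →ₗ[ℂ] ℂ, (∀ y, T y = ∑ᶠ c : W n, (c.length : ℂ)⁻¹ * D.tau c y * f c) ∧
      (∀ y z : L, T (y * z) = T (z * y)) := by
  have hz : ∀ b : W n, b ≠ [] → D.tau b 0 = 0 := fun b hb => k13_tau_zero k2 D b hb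
  have hfin : ∀ y, (Function.support fun c : W n => (c.length : ℂ)⁻¹ * D.tau c y * f c).Finite :=
    fun y => k13_fin k3 D f y hz
  refine ⟨{ toFun := fun y => ∑ᶠ c : W n, (c.length : ℂ)⁻¹ * D.tau c y * f c
            map_add' := ?_
            map_smul' := ?_ }, fun y => rfl, ?_⟩
  · intro y z
    rw [← finsum_add_distrib (hfin y) (hfin z)]
    apply finsum_congr
    intro c
    rcases eq_or_ne c [] with rfl | hc
    · simp
    · rw [(k2 n L D c hc).2.1]; ring
  · intro r y
    rw [RingHom.id_apply, smul_finsum' _ (hfin y)]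
    apply finsum_congr
    intro c
    rcases eq_or_ne c [] with rfl | hc
    · simp
    · rw [(k2 n L D c hc).2.2.1, smul_eq_mul]; ring
  · intro y z
    change ∑ᶠ c : W n, (c.length : ℂ)⁻¹ * D.tau c (y * z) * f c =
      ∑ᶠ c : W n, (c.length : ℂ)⁻¹ * D.tau c (z * y) * f c
    apply finsum_congr
    intro c
    rcases eq_or_ne c [] with rfl | hc
    · simp
    · rw [(k3 n L D c hc).1]

theorem k13_T_w (k2 : StK2) {n : ℕ} {L : Type} [Ring L] [Algebra ℂ L] [StarRing L]
    [StarModule ℂ L] [Nontrivial L] (D : Sys n L) (f : W n → ℂ)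
    (hf : ∀ (c : W n) (i : ℕ), f (c.rotate i) = f c)
    (T : L →ₗ[ℂ] ℂ) (hT : ∀ y, T y = ∑ᶠ c : W n, (c.length : ℂ)⁻¹ * D.tau c y * f c)
    (ν : W n) (hν : ν ≠ []) : T (D.w ν) = f ν := by
  rw [hT, ← k13_rotsum f hf ν hν]
  apply finsum_congr
  intro c
  rcases eq_or_ne c [] with rfl | hc
  · simp
  · rw [(k2 n L D c hc).2.2.2.1]

/-- The value of T_f on an element of S with constant term 0. -/
theorem k13_T_S (k2 : StK2) (h3 : StA3) {n : ℕ} {L : Type} [Ring L] [Algebra ℂ L] [StarRing L]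
    [StarModule ℂ L] [Nontrivial L] (D : Sys n L) (f : W n → ℂ)
    (hf : ∀ (c : W n) (i : ℕ), f (c.rotate i) = f c)
    (T : L →ₗ[ℂ] ℂ) (hT : ∀ y, T y = ∑ᶠ c : W n, (c.length : ℂ)⁻¹ * D.tau c y * f c)
    (s : L) (hs : s ∈ D.S) (hs0 : D.cf s [] = 0) :
    T s = (D.cf s).sum fun ν r => r * f ν := by
  obtain ⟨-, -, c2, -⟩ := h3 n L D
  conv_lhs => rw [← c2 s hs]
  unfold Sys.emb
  rw [Finsupp.linearCombination_apply, Finsupp.sum, map_sum, Finsupp.sum]
  apply Finset.sum_congr rfl
  intro ν hν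
  have hν' : ν ≠ [] := by
    rintro rfl
    exact (Finsupp.mem_support_iff.mp hν) hs0
  rw [map_smul, k13_T_w k2 D f hf T hT ν hν', smul_eq_mul]

/-- tau is invariant under rotation of the word. -/
theorem k13_tau_rot (k2 : StK2) {n : ℕ} {L : Type} [Ring L] [Algebra ℂ L] [StarRing L]
    [StarModule ℂ L] [Nontrivial L] (D : Sys n L) (b : W n) (hb : b ≠ []) (m : ℕ) (y : L) :
    D.tau (b.rotate m) y = D.tau b y := by
  have hb' : b.rotate m ≠ [] := by
    intro h
    exact hb (List.rotate_eq_nil_iff.mp h)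
  obtain ⟨-, a1, a2, -, -, a5, a6⟩ := k2 n L D b hb
  obtain ⟨-, b1, b2, -, -, b5, b6⟩ := k2 n L D (b.rotate m) hb'
  have hy := D.span y
  induction hy using Submodule.span_induction with
  | mem x hx =>
    obtain ⟨⟨α, β⟩, rfl⟩ := hx
    change D.tau (b.rotate m) (D.w α * star (D.w β)) = D.tau b (D.w α * star (D.w β))
    by_cases h : α.length = β.length + b.length ∧ β = α.take β.length
    · rw [a5 α β h.1 h.2, b5 α β (by rw [List.length_rotate]; exact h.1) h.2, k13_rotc_rotate]
    · rw [a6 α β h, b6 α β (by rw [List.length_rotate]; exact h)]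
  | zero => rw [k13_tau_zero k2 D b hb, k13_tau_zero k2 D _ hb']
  | add u v _ _ hu hv => rw [a1, b1, hu, hv]
  | smul c u _ hu => rw [a2, b2, hu]

/-! ## Evaluation of elements of S -/

/-- Evaluation of an element of S at a multiplicative function on words. -/
noncomputable def k13E {n : ℕ} {L : Type} [Ring L] [Algebra ℂ L] [StarRing L] (D : Sys n L)
    {A : Type} [Ring A] [Algebra ℂ A] (F : W n → A) : L →ₗ[ℂ] A :=
  (Finsupp.linearCombination ℂ F) ∘ₗ D.cf

theorem k13E_w (h3 : StA3) {n : ℕ} {L : Type} [Ring L] [Algebra ℂ L] [StarRing L]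
    [StarModule ℂ L] [Nontrivial L] (D : Sys n L)
    {A : Type} [Ring A] [Algebra ℂ A] (F : W n → A) (μ : W n) :
    k13E D F (D.w μ) = F μ := by
  obtain ⟨-, c1, -, -⟩ := h3 n L D
  have : D.cf (D.w μ) = Finsupp.single μ 1 := by
    have := c1 (Finsupp.single μ 1)
    unfold Sys.emb at this
    rwa [Finsupp.linearCombination_single, one_smul] at this
  unfold k13E
  rw [LinearMap.comp_apply, this, Finsupp.linearCombination_single, one_smul]

theorem k13E_mul (h3 : StA3) {n : ℕ} {L : Type} [Ring L] [Algebra ℂ L] [StarRing L]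
    [StarModule ℂ L] [Nontrivial L] (D : Sys n L)
    {A : Type} [Ring A] [Algebra ℂ A] (F : W n → A) (hF : ∀ μ ν, F (μ ++ ν) = F μ * F ν)
    (y z : L) (hy : y ∈ D.S) (hz : z ∈ D.S) :
    k13E D F (y * z) = k13E D F y * k13E D F z := by
  unfold Sys.S at hy hz
  induction hy using Submodule.span_induction with
  | mem x hx =>
    obtain ⟨μ, rfl⟩ := hx
    induction hz using Submodule.span_induction with
    | mem x hx =>
      obtain ⟨ν, rfl⟩ := hx
      rw [← k13_w_append, k13E_w h3, k13E_w h3, k13E_w h3, hF]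
    | zero => rw [mul_zero, map_zero, mul_zero]
    | add u v _ _ hu hv => rw [mul_add, map_add, map_add, hu, hv, mul_add]
    | smul c u _ hu => rw [mul_smul_comm, map_smul, map_smul, hu, mul_smul_comm]
  | zero => rw [zero_mul, map_zero, zero_mul]
  | add u v _ _ hu hv => rw [add_mul, map_add, map_add, hu, hv, add_mul]
  | smul c u _ hu => rw [smul_mul_assoc, map_smul, map_smul, hu, smul_mul_assoc]

/-- The block matrix of h y g. -/
noncomputable def k13M {n : ℕ} {L : Type} [Ring L] [Algebra ℂ L] [StarRing L] (D : Sys n L)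
    {A : Type} [Ring A] [Algebra ℂ A] (F : W n → A) {d : ℕ} (g h : Fin d → L) (y : L) :
    Matrix (Fin d) (Fin d) A := Matrix.of fun p q => k13E D F (h p * y * g q)

theorem k13M_mul (h3 : StA3) {n : ℕ} {L : Type} [Ring L] [Algebra ℂ L] [StarRing L]
    [StarModule ℂ L] [Nontrivial L] (D : Sys n L)
    {A : Type} [Ring A] [Algebra ℂ A] (F : W n → A) (hF : ∀ μ ν, F (μ ++ ν) = F μ * F ν)
    {d : ℕ} (g h : Fin d → L) (hgh : ∑ p, g p * h p = 1) (y z : L)
    (hy : ∀ p q, h p * y * g q ∈ D.S) (hz : ∀ p q, h p * z * g q ∈ D.S) :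
    k13M D F g h (y * z) = k13M D F g h y * k13M D F g h z := by
  ext p q
  unfold k13M
  rw [Matrix.mul_apply]
  simp only [Matrix.of_apply]
  have h1 : ∀ r, k13E D F (h p * y * g r) * k13E D F (h r * z * g q) =
      k13E D F (h p * y * (g r * h r) * (z * g q)) := by
    intro r
    rw [← k13E_mul h3 D F hF _ _ (hy p r) (hz r q)]
    congr 1
    simp only [mul_assoc]
  rw [Finset.sum_congr rfl (fun r _ => h1 r), ← map_sum, ← Finset.sum_mul, ← Finset.mul_sum, hgh,
    mul_one]
  congr 1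
  simp only [mul_assoc]

/-- The powers of a word. -/
def k13P {n : ℕ} (a : W n) : ℕ → W n
  | 0 => []
  | m + 1 => k13P a m ++ a

theorem k13P_one {n : ℕ} (a : W n) : k13P a 1 = a := by
  simp [k13P]

theorem k13P_length {n : ℕ} (a : W n) (m : ℕ) : (k13P a m).length = m * a.length := by
  induction m with
  | zero => simp [k13P]
  | succ m ih => rw [k13P, List.length_append, ih]; ring

theorem k13M_pow (h0 : StA0) (h3 : StA3) {n : ℕ} {L : Type} [Ring L] [Algebra ℂ L] [StarRing L]
    [StarModule ℂ L] [Nontrivial L] (D : Sys n L)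
    {A : Type} [Ring A] [Algebra ℂ A] (F : W n → A) (hF : ∀ μ ν, F (μ ++ ν) = F μ * F ν)
    {d : ℕ} (g h : Fin d → L) (hgh : ∑ p, g p * h p = 1) (z : ℂ) (hz : z ≠ 0)
    (hS : ∀ (μ : W n) (p q : Fin d), h p * D.b.ev z (D.w μ) * g q ∈ D.S) (a : W n) (m : ℕ)
    (hm : 1 ≤ m) :
    k13M D F g h (D.b.ev z (D.w (k13P a m))) = k13M D F g h (D.b.ev z (D.w a)) ^ m := by
  induction m, hm using Nat.le_induction with
  | base => rw [k13P_one, pow_one]
  | succ m hm ih =>
    rw [k13P, k13_w_append, (h0 L D.b).2.1 z _ _ hz, k13M_mul h3 D F hF g h hgh _ _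
      (hS _) (hS _), ih, pow_succ]

/-! ## The constant terms -/

theorem k13_const (h0 : StA0) (h3 : StA3) (h4 : StA5) {n : ℕ} {L : Type} [Ring L] [Algebra ℂ L]
    [StarRing L] [StarModule ℂ L] [Nontrivial L] (D : Sys n L)
    {d : ℕ} (g h : Fin d → L) (hgh : ∑ p, g p * h p = 1) (z : ℂ) (hz : z ≠ 0)
    (hS : ∀ (μ : W n) (p q : Fin d), h p * D.b.ev z (D.w μ) * g q ∈ D.S) (a : W n) (ha : a ≠ [])
    (m : ℕ) (hm : 1 ≤ m) :
    ∑ p, D.cf (h p * D.b.ev z (D.w (k13P a m)) * g p) [] = 0 := by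
  classical
  set F : W n → ℂ := fun μ => if μ = [] then 1 else 0 with hFdef
  have hF : ∀ μ ν, F (μ ++ ν) = F μ * F ν := by
    intro μ ν
    rw [hFdef]
    by_cases h1 : μ = []
    · by_cases h2 : ν = []
      · simp [h1, h2]
      · simp [h1, h2]
    · simp [h1]
  have hE : ∀ y, k13E D F y = D.cf y [] := by
    intro y
    unfold k13E
    rw [LinearMap.comp_apply, Finsupp.linearCombination_apply, Finsupp.sum, hFdef]
    by_cases hy : D.cf y [] = 0
    · rw [hy]
      apply Finset.sum_eq_zero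
      intro μ hμ
      have : μ ≠ [] := by
        rintro rfl
        exact (Finsupp.mem_support_iff.mp hμ) hy
      simp [this]
    · rw [Finset.sum_eq_single ([] : W n)]
      · simp
      · intro μ _ hμ
        simp [hμ]
      · intro h
        rw [Finsupp.notMem_support_iff] at h
        exact absurd h hy
  -- common lower bound of the gauge degrees
  choose A hA using fun p => k13_bdd D.g (h p)
  choose A' hA' using fun p => k13_bdd D.g (g p)
  obtain ⟨C1, hC1⟩ := (Set.finite_range A).bddBelow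
  obtain ⟨C2, hC2⟩ := (Set.finite_range A').bddBelow
  obtain ⟨k, hk⟩ := D.G2 (1 - C1 - C2)
  have halen : 1 ≤ a.length := List.length_pos_iff.mpr ha
  have hnil : IsNilpotent (k13M D F g h (D.b.ev z (D.w a))) := by
    refine ⟨k + 1, ?_⟩
    rw [← k13M_pow h0 h3 D F hF g h hgh z hz hS a (k + 1) (by omega)]
    have hlen : k ≤ (k13P a (k + 1)).length := by
      rw [k13P_length]
      nlinarith
    ext p q
    unfold k13M
    rw [Matrix.of_apply, hE, Matrix.zero_apply]
    have h5 := ((h4 n L D).2.2.2.1 _ (hS (k13P a (k + 1)) p q) 0).2 []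
    rw [if_pos (by simp)] at h5
    rw [← h5]
    have hy : ∀ l < 1 - C1 - C2, D.g.p l (D.b.ev z (D.w (k13P a (k + 1)))) = 0 := by
      intro l hl
      rw [k13_ev_sum D.b z _ (D.b.fin (D.w (k13P a (k + 1)))).toFinset
        (fun j hj => by rw [Set.Finite.mem_toFinset]; exact hj), map_sum]
      apply Finset.sum_eq_zero
      intro j _
      rw [map_smul]
      have : D.g.p l (D.b.p j (D.w (k13P a (k + 1)))) = 0 := hk _ hlen j l hl
      rw [this, smul_zero]
    have h6 : ∀ l < C1, D.g.p l (h p) = 0 := by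
      intro l hl
      exact hA p l (lt_of_lt_of_le hl (hC1 ⟨p, rfl⟩))
    have h7 : ∀ l < C2, D.g.p l (g q) = 0 := by
      intro l hl
      exact hA' q l (lt_of_lt_of_le hl (hC2 ⟨q, rfl⟩))
    have h8 := k13_low_mul h0 D.g _ _ _ _ (k13_low_mul h0 D.g _ _ _ _ h6 hy) h7 0 (by omega)
    rw [h8, map_zero, Finsupp.zero_apply]
  have hnil2 : IsNilpotent (k13M D F g h (D.b.ev z (D.w a)) ^ m) := hnil.pow_of_pos (by omega)
  have htr : (k13M D F g h (D.b.ev z (D.w a)) ^ m).trace = 0 :=
    (Matrix.isNilpotent_trace_of_isNilpotent hnil2).eq_zero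
  rw [← k13M_pow h0 h3 D F hF g h hgh z hz hS a m hm] at htr
  rw [← htr, Matrix.trace]
  apply Finset.sum_congr rfl
  intro p _
  rw [Matrix.diag_apply, k13M, Matrix.of_apply, hE]

/-! ## Traces of block matrices -/

theorem k13_block {d e : ℕ} (N : Matrix (Fin d) (Fin d) (Matrix (Fin e) (Fin e) ℂ)) :
    ∃ R : Matrix (Fin (d * e)) (Fin (d * e)) ℂ, ∀ m : ℕ,
      (R ^ m).trace = ∑ p, ((N ^ m) p p).trace := by
  have key : ∀ N : Matrix (Fin d) (Fin d) (Matrix (Fin e) (Fin e) ℂ),
      (Matrix.reindexAlgEquiv ℂ ℂ finProdFinEquiv (Matrix.compRingEquiv _ _ _ N)).trace =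
        ∑ p, (N p p).trace := by
    intro N
    rw [Matrix.trace]
    rw [← Equiv.sum_comp finProdFinEquiv, Fintype.sum_prod_type]
    apply Finset.sum_congr rfl
    intro p _
    rw [Matrix.trace]
    apply Finset.sum_congr rfl
    intro i _
    simp [Matrix.diag_apply, Matrix.coe_reindexAlgEquiv, Matrix.reindex_apply,
      Matrix.submatrix_apply]
  refine ⟨Matrix.reindexAlgEquiv ℂ ℂ finProdFinEquiv (Matrix.compRingEquiv _ _ _ N), ?_⟩
  intro m
  rw [← map_pow, ← map_pow, key]

theorem k13E_trace {n : ℕ} {L : Type} [Ring L] [Algebra ℂ L] [StarRing L] (D : Sys n L) {e : ℕ}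
    (F : W n → Matrix (Fin e) (Fin e) ℂ) (y : L) :
    (k13E D F y).trace = (D.cf y).sum fun μ r => r * (F μ).trace := by
  unfold k13E
  rw [LinearMap.comp_apply, Finsupp.linearCombination_apply, Finsupp.sum, Matrix.trace_sum,
    Finsupp.sum]
  apply Finset.sum_congr rfl
  intro μ _
  rw [Matrix.trace_smul, smul_eq_mul]

/-- Laurent polynomials which tend to zero at 0 have no terms of nonpositive degree. -/
theorem k13_laurent (s : Finset ℤ) (χ : ℤ → ℂ)
    (h : Tendsto (fun k : ℕ => ∑ j ∈ s, ((1 : ℂ) / ((k : ℂ) + 1)) ^ j * χ j) atTop (𝓝 0)) :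
    ∀ j ∈ s, j ≤ 0 → χ j = 0 := by
  classical
  intro j hj hj0
  by_contra hne
  set s' := s.filter (fun j => χ j ≠ 0) with hs'
  have hne' : s'.Nonempty := ⟨j, by rw [hs', Finset.mem_filter]; exact ⟨hj, hne⟩⟩
  set i := s'.min' hne' with hi
  have hi0 : i ≤ 0 := le_trans (s'.min'_le j (by rw [hs', Finset.mem_filter]; exact ⟨hj, hne⟩)) hj0
  have himem : i ∈ s' := s'.min'_mem hne'
  have hχi : χ i ≠ 0 := by
    rw [hs', Finset.mem_filter] at himem
    exact himem.2
  have hz : Tendsto (fun k : ℕ => ((1 : ℂ) / ((k : ℂ) + 1))) atTop (𝓝 0) :=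
    tendsto_one_div_add_atTop_nhds_zero_nat
  have hpos : ∀ l : ℤ, 0 < l → Tendsto (fun k : ℕ => ((1 : ℂ) / ((k : ℂ) + 1)) ^ l) atTop (𝓝 0) := by
    intro l hl
    obtain ⟨m, rfl⟩ := Int.eq_ofNat_of_zero_le hl.le
    have hm : m ≠ 0 := by
      rintro rfl
      simp at hl
    have := hz.pow m
    rw [zero_pow hm] at this
    simpa using this
  have hnn : ∀ l : ℤ, 0 ≤ l → ∃ c : ℂ,
      Tendsto (fun k : ℕ => ((1 : ℂ) / ((k : ℂ) + 1)) ^ l) atTop (𝓝 c) := by
    intro l hl
    rcases hl.eq_or_lt with h | h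
    · refine ⟨1, ?_⟩
      rw [← h]
      simp
    · exact ⟨0, hpos l h⟩
  have hzne : ∀ k : ℕ, ((1 : ℂ) / ((k : ℂ) + 1)) ≠ 0 := by
    intro k
    apply one_div_ne_zero
    exact Nat.cast_add_one_ne_zero k
  obtain ⟨c, hc⟩ := hnn (-i) (by omega)
  have h1 : Tendsto (fun k : ℕ => ((1 : ℂ) / ((k : ℂ) + 1)) ^ (-i) *
      ∑ j ∈ s, ((1 : ℂ) / ((k : ℂ) + 1)) ^ j * χ j) atTop (𝓝 0) := by
    have := hc.mul h
    rwa [mul_zero] at this
  have h2 : Tendsto (fun k : ℕ => ((1 : ℂ) / ((k : ℂ) + 1)) ^ (-i) *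
      ∑ j ∈ s, ((1 : ℂ) / ((k : ℂ) + 1)) ^ j * χ j) atTop (𝓝 (χ i)) := by
    have e1 : (fun k : ℕ => ((1 : ℂ) / ((k : ℂ) + 1)) ^ (-i) *
      ∑ j ∈ s, ((1 : ℂ) / ((k : ℂ) + 1)) ^ j * χ j) = fun k : ℕ =>
      ∑ j ∈ s, ((1 : ℂ) / ((k : ℂ) + 1)) ^ (j - i) * χ j := by
      funext k
      rw [Finset.mul_sum]
      apply Finset.sum_congr rfl
      intro j _
      rw [← mul_assoc, ← zpow_add₀ (hzne k)]
      congr 2
      ring
    rw [e1]
    have hterm : ∀ j ∈ s, Tendsto (fun k : ℕ => ((1 : ℂ) / ((k : ℂ) + 1)) ^ (j - i) * χ j) atTop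
        (𝓝 (if j = i then χ i else 0)) := by
      intro j hj
      by_cases hji : j = i
      · rw [if_pos hji, hji]
        simp
      · rw [if_neg hji]
        by_cases hχ : χ j = 0
        · rw [hχ]; simp
        · have hjs : j ∈ s' := by rw [hs', Finset.mem_filter]; exact ⟨hj, hχ⟩
          have hle := s'.min'_le j hjs
          have hlt : 0 < j - i := by
            have : i ≤ j := hle
            omega
          have := (hpos _ hlt).mul_const (χ j)
          rwa [zero_mul] at this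
    have := tendsto_finsetSum s hterm
    rw [Finset.sum_ite_eq' s i] at this
    have himem' : i ∈ s := by
      rw [hs', Finset.mem_filter] at himem
      exact himem.1
    rwa [if_pos himem'] at this
  exact hχi (tendsto_nhds_unique h2 h1)

theorem k13_zpos (l : ℤ) (hl : 0 < l) :
    Tendsto (fun k : ℕ => ((1 : ℂ) / ((k : ℂ) + 1)) ^ l) atTop (𝓝 0) := by
  have hz : Tendsto (fun k : ℕ => ((1 : ℂ) / ((k : ℂ) + 1))) atTop (𝓝 0) :=
    tendsto_one_div_add_atTop_nhds_zero_nat
  obtain ⟨m, rfl⟩ := Int.eq_ofNat_of_zero_le hl.le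
  have hm : m ≠ 0 := by
    rintro rfl
    simp at hl
  have := hz.pow m
  rw [zero_pow hm] at this
  simpa using this

/-- For all matrices X the functional T_X kills the components of degree at most 0 of the words. -/
theorem k13_chi (h0 : StA0) (h3 : StA3) (h4 : StA5) (k2 : StK2) (k10 : StK10)
    (k11 : StK11) {n : ℕ} {L : Type} [Ring L] [Algebra ℂ L] [StarRing L] [StarModule ℂ L]
    [Nontrivial L] (D : Sys n L) (a : W n) (ha : a ≠ []) (e : ℕ)
    (X : Fin n → Matrix (Fin e) (Fin e) ℂ) (T : L →ₗ[ℂ] ℂ)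
    (hT : ∀ y, T y = ∑ᶠ c : W n, (c.length : ℂ)⁻¹ * D.tau c y * ((c.map X).prod).trace)
    (hTc : ∀ y z : L, T (y * z) = T (z * y)) (j : ℤ) (hj : j ≤ 0) :
    T (D.b.p j (D.w a)) = 0 := by
  obtain ⟨D0, hD0⟩ := k10 n L D
  have hzne : ∀ k : ℕ, ((1 : ℂ) / ((k : ℂ) + 1)) ≠ 0 := by
    intro k
    apply one_div_ne_zero
    exact Nat.cast_add_one_ne_zero k
  choose d hd g h hgh hS using fun k : ℕ => hD0 ((1 : ℂ) / ((k : ℂ) + 1)) (hzne k)
  set F : W n → Matrix (Fin e) (Fin e) ℂ := fun μ => (μ.map X).prod with hFdef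
  have hF : ∀ μ ν, F (μ ++ ν) = F μ * F ν := by
    intro μ ν
    simp only [hFdef]
    rw [List.map_append, List.prod_append]
  have hrot : ∀ (c : W n) (i : ℕ), (F (c.rotate i)).trace = (F c).trace :=
    fun c i => k13_trace_rotate X i c
  choose R hR using fun k : ℕ =>
    k13_block (k13M D F (g k) (h k) (D.b.ev ((1 : ℂ) / ((k : ℂ) + 1)) (D.w a)))
  have key : ∀ k m : ℕ, 1 ≤ m →
      (R k ^ m).trace = T (D.b.ev ((1 : ℂ) / ((k : ℂ) + 1)) (D.w (k13P a m))) := by
    intro k m hm
    rw [hR, ← k13M_pow h0 h3 D F hF (g k) (h k) (hgh k) _ (hzne k) (hS k) a m hm]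
    set y := D.b.ev ((1 : ℂ) / ((k : ℂ) + 1)) (D.w (k13P a m)) with hy
    have e1 : ∑ p, (k13M D F (g k) (h k) y p p).trace =
        (k13E D F (∑ p, h k p * y * g k p)).trace := by
      rw [map_sum, Matrix.trace_sum]
      rfl
    have hs : ∑ p, h k p * y * g k p ∈ D.S := Submodule.sum_mem _ fun p _ => hS k _ p p
    have hs0 : D.cf (∑ p, h k p * y * g k p) [] = 0 := by
      rw [map_sum, Finsupp.finsetSum_apply]
      exact k13_const h0 h3 h4 D (g k) (h k) (hgh k) _ (hzne k) (hS k) a ha m hm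
    rw [e1, k13E_trace, ← k13_T_S k2 h3 D (fun c => (F c).trace) hrot T hT _ hs hs0, map_sum]
    have e2 : ∀ p, T (h k p * y * g k p) = T (g k p * h k p * y) := by
      intro p
      rw [hTc, ← mul_assoc]
    rw [Finset.sum_congr rfl (fun p _ => e2 p), ← map_sum, ← Finset.sum_mul, hgh, one_mul]
  have hev : ∀ (k : ℕ) (y : L), T (D.b.ev ((1 : ℂ) / ((k : ℂ) + 1)) y) =
      ∑ j ∈ (D.b.fin y).toFinset, ((1 : ℂ) / ((k : ℂ) + 1)) ^ j * T (D.b.p j y) := by
    intro k y
    rw [k13_ev_sum D.b _ y (D.b.fin y).toFinset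
      (fun j hj => by rw [Set.Finite.mem_toFinset]; exact hj), map_sum]
    apply Finset.sum_congr rfl
    intro j _
    rw [map_smul, smul_eq_mul]
  obtain ⟨k1, hk1⟩ := D.G1 1
  have halen : 1 ≤ a.length := List.length_pos_iff.mpr ha
  have hlim : ∀ m ≥ k1 + 1, Tendsto (fun k => ((R k) ^ m).trace) atTop (𝓝 0) := by
    intro m hm
    have hlen : k1 ≤ (k13P a m).length := by
      rw [k13P_length]
      nlinarith
    have e1 : (fun k => ((R k) ^ m).trace) = fun k : ℕ =>
        ∑ j ∈ (D.b.fin (D.w (k13P a m))).toFinset,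
          ((1 : ℂ) / ((k : ℂ) + 1)) ^ j * T (D.b.p j (D.w (k13P a m))) := by
      funext k
      rw [key k m (by omega), hev]
    rw [e1]
    have hterm : ∀ j ∈ (D.b.fin (D.w (k13P a m))).toFinset,
        Tendsto (fun k : ℕ => ((1 : ℂ) / ((k : ℂ) + 1)) ^ j * T (D.b.p j (D.w (k13P a m)))) atTop
          (𝓝 0) := by
      intro j hj
      rw [Set.Finite.mem_toFinset] at hj
      have hj1 : 0 < j := by
        by_contra hlt
        exact hj (hk1 _ hlen j (by omega))
      have := (k13_zpos j hj1).mul_const (T (D.b.p j (D.w (k13P a m))))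
      rwa [zero_mul] at this
    have := tendsto_finsetSum _ hterm
    rwa [Finset.sum_const_zero] at this
  have hone := k11 (D0 * e) (k1 + 1) (fun k => d k * e) R
    (fun k => Nat.mul_le_mul_right e (hd k)) hlim
  have e1 : (fun k => (R k).trace) = fun k : ℕ =>
      ∑ j ∈ (D.b.fin (D.w a)).toFinset,
        ((1 : ℂ) / ((k : ℂ) + 1)) ^ j * T (D.b.p j (D.w a)) := by
    funext k
    have := key k 1 le_rfl
    rw [pow_one, k13P_one] at this
    rw [this, hev]
  rw [e1] at hone
  by_cases hjs : j ∈ (D.b.fin (D.w a)).toFinset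
  · exact k13_laurent _ _ hone j hjs hj
  · rw [Set.Finite.mem_toFinset] at hjs
    have : D.b.p j (D.w a) = 0 := by
      by_contra hne
      exact hjs hne
    rw [this, map_zero]

theorem hK13 (h1 : StA0) (h2 : StA2) (h3 : StA3) (h4 : StA5) (h5 : StK2) (h6 : StK3)
    (h7 : StK10) (h8 : StK11) (h9 : StK12) : StK13 := by
  intro n L _ _ _ _ _ D a b j hb hj
  classical
  have _ := h2
  rcases eq_or_ne a [] with rfl | ha
  · have e1 : D.b.p j (D.w ([] : W n)) = if j = 0 then 1 else 0 := by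
      rw [k13_w_nil]
      conv_lhs => rw [← D.b.one]
      rw [D.b.pp, D.b.one]
    rw [e1]
    split_ifs
    · have := (h5 n L D b hb).2.2.2.1 []
      rw [k13_w_nil] at this
      rw [this]
      have hr : rotc ([] : W n) b = 0 := by
        unfold rotc
        rw [if_neg]
        intro h
        exact hb (List.length_eq_zero_iff.mp h.symm)
      rw [hr, Nat.cast_zero]
    · exact k13_tau_zero h5 D b hb
  · set y := D.b.p j (D.w a) with hy
    have hfin : (Function.support fun c : W n => (c.length : ℂ)⁻¹ * D.tau c y).Finite := by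
      have := k13_fin h6 D (fun _ => (1 : ℂ)) y (fun b hb => k13_tau_zero h5 D b hb)
      simpa using this
    set F : W n →₀ ℂ := Finsupp.ofSupportFinite (fun c : W n => (c.length : ℂ)⁻¹ * D.tau c y) hfin
      with hFdef
    have hFa : ∀ c, F c = (c.length : ℂ)⁻¹ * D.tau c y := fun c => rfl
    have hX : ∀ (d : ℕ) (X : Fin n → Matrix (Fin d) (Fin d) ℂ),
        F.sum (fun μ r => r * ((μ.map X).prod).trace) = 0 := by
      intro d X
      obtain ⟨T, hT, hTc⟩ := k13_T h5 h6 D (fun c => ((c.map X).prod).trace)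
      have h10 := k13_chi h1 h3 h4 h5 h7 h8 D a ha d X T hT hTc j hj
      rw [hT] at h10
      rw [← h10, Finsupp.sum]
      symm
      apply finsum_eq_sum_of_support_subset
      intro c hc
      rw [Function.mem_support] at hc
      rw [Finset.mem_coe, Finsupp.mem_support_iff, hFa]
      intro h
      apply hc
      rw [← hy, h, zero_mul]
    have h11 := h9 n F hX b hb
    by_contra hne
    have hblen : (b.length : ℂ) ≠ 0 := by
      rw [Nat.cast_ne_zero]
      exact fun h => hb (List.length_eq_zero_iff.mp h)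
    have hterm : ∀ μ ∈ F.support, F μ * (rotc μ b : ℂ) =
        ((b.length : ℂ)⁻¹ * D.tau b y) * ((rotc μ b : ℕ) : ℂ) := by
      intro μ _
      by_cases hr : rotc μ b = 0
      · rw [hr]; simp
      · obtain ⟨hl, i, hi⟩ := k13_rotc_ne μ b hr
        have hμ : μ ≠ [] := by
          rintro rfl
          apply hb
          exact List.length_eq_zero_iff.mp hl.symm
        rw [hFa, hl, ← k13_tau_rot h5 D μ hμ i y, hi]
    rw [Finsupp.sum, Finset.sum_congr rfl hterm, ← Finset.mul_sum, ← Nat.cast_sum] at h11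
    have hbs : b ∈ F.support := by
      rw [Finsupp.mem_support_iff, hFa]
      exact mul_ne_zero (inv_ne_zero hblen) hne
    have hpos : 0 < ∑ μ ∈ F.support, rotc μ b :=
      lt_of_lt_of_le (k13_rotc_self b hb)
        (Finset.single_le_sum (f := fun μ => rotc μ b) (fun _ _ => Nat.zero_le _) hbs)
    have hne2 : ((∑ μ ∈ F.support, rotc μ b : ℕ) : ℂ) ≠ 0 := by
      rw [Nat.cast_ne_zero]
      omega
    exact mul_ne_zero (mul_ne_zero (inv_ne_zero hblen) hne) hne2 h11

end Pool.Agent.Helper90.SI
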